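import Pool.Agent.K6.H47.TS.Final

/-!
# Q1 of MP_868e2f_al: a negative answer, over every algebraically closed field of characteristic not 2

The Hopf algebra is the bosonisation by `Z/2 × Z/2` of the Nichols algebra of type `A_2` at `q = -1`:
it has dimension 32, generators `g, h, x, y` and relations
`g² = h² = 1`, `gh = hg`, `gx = -xg`, `hx = -xh`, `gy = yg`, `hy = -yh`, `x² = y² = 0`,
`(xy)² + (yx)² = 0`, with `g, h` group-like, `Δ x = x ⊗ 1 + g ⊗ x`, `Δ y = y ⊗ 1 + h ⊗ y`.
* It is tame: every indecomposable module is a string or a band module (proved from scratch, by the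
  reduction of pairs of flags).
* The modules on which `x` is exact form a prime ideal, and so do the modules on which `y` is exact.
  The first contains `M = ⟨v, xv⟩` and the second contains `N = ⟨u, yu⟩`, but no prime ideal contains
  both, since there is an exact sequence `0 → N → L ⊕ S → M → 0` with `S` one-dimensional. So the
  spectrum is reducible.
-/

set_option autoImplicit false

namespace Pool.Agent.Results.MP_868e2f_al.ReducibleSpectrum

open Pool.Agent.K6.H47.TS

theorem result (k : Type) [Field k] [IsAlgClosed k] (h2 : (2 : k) ≠ 0) :
    ∃ (A : Type) (_ : Ring A) (_ : HopfAlgebra k A),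
      Module.Finite k A ∧ Tame k A ∧ ¬ PreirreducibleSpace (Spc k A) ∧
        IsEmpty (Spc k A ≃ₜ ProjectiveLine k) :=
  ⟨H k, inferInstance, hopf k, main k h2⟩

end Pool.Agent.Results.MP_868e2f_al.ReducibleSpectrum
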